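import Pool.Agent.MP_f80039_co.H9.Stages

/-! The number `M n` of magic squares of order `n` satisfies
`M n ∼ n * (n ^ 2)! / (8 * e) * (6 / (π * n ^ 5)) ^ n`. -/

set_option autoImplicit false

namespace Pool.Agent.Results.MP_f80039_co.Asymptotic

open Finset Filter Pool.Agent.MP_f80039_co.H9

/-- `A` is a magic square of order `n`: it uses each of `1, …, n ^ 2` exactly once, and all rows,
all columns and both main diagonals have the same sum. -/
def IsMagic (n : ℕ) (A : Fin n × Fin n → ℕ) : Prop :=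
  Set.BijOn A Set.univ (Set.Icc 1 (n ^ 2)) ∧
    ∃ S : ℕ, (∀ i, ∑ j, A (i, j) = S) ∧ (∀ j, ∑ i, A (i, j) = S) ∧
      ∑ i, A (i, i) = S ∧ ∑ i, A (i, Fin.rev i) = S

/-- The eight symmetries of the square: an optional transposition, followed by an optional
reversal of the rows and an optional reversal of the columns. -/
def symm {n : ℕ} (s r c : Bool) (p : Fin n × Fin n) : Fin n × Fin n :=
  (if r then Fin.rev (if s then p.2 else p.1) else (if s then p.2 else p.1),
    if c then Fin.rev (if s then p.1 else p.2) else (if s then p.1 else p.2))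

/-- The number of magic squares of order `n` up to rotations and reflections. -/
noncomputable def M (n : ℕ) : ℕ :=
  Nat.card (Quot fun A B : {A : Fin n × Fin n → ℕ // IsMagic n A} =>
    ∃ s r c : Bool, B.1 = A.1 ∘ symm s r c)

theorem symm_comp {n : ℕ} (s r c s' r' c' : Bool) : (symm s r c ∘ symm s' r' c' :
    Fin n × Fin n → Fin n × Fin n) =
      symm (xor s s') (xor r (if s then c' else r')) (xor c (if s then r' else c')) := by
  funext p
  cases s <;> cases r <;> cases c <;> cases s' <;> cases r' <;> cases c' <;> simp [symm]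

theorem symm_id {n : ℕ} : (symm false false false : Fin n × Fin n → Fin n × Fin n) = id := by
  funext p
  simp [symm]

theorem equiv (n : ℕ) : Equivalence fun A B : {A : Fin n × Fin n → ℕ // IsMagic n A} =>
    ∃ s r c : Bool, B.1 = A.1 ∘ symm s r c := by
  refine ⟨fun A => ⟨false, false, false, by simp [symm_id]⟩, ?_, ?_⟩
  · rintro A B ⟨s, r, c, h⟩
    refine ⟨s, if s then c else r, if s then r else c, ?_⟩
    rw [h, Function.comp_assoc, symm_comp]
    cases s <;> simp [symm_id]
  · rintro A B C ⟨s, r, c, h⟩ ⟨s', r', c', h'⟩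
    exact ⟨_, _, _, by rw [h', h, Function.comp_assoc, symm_comp]⟩

theorem IsMagic.symm {n : ℕ} {A : Fin n × Fin n → ℕ} (h : IsMagic n A) (s r c : Bool) :
    IsMagic n (A ∘ symm s r c) := by
  obtain ⟨hb, S, h1, h2, h3, h4⟩ := h
  have hr : ∀ f : Fin n → ℕ, ∑ i, f (Fin.rev i) = ∑ i, f i := fun f => Equiv.sum_comp Fin.revPerm f
  have h1' := fun i => (hr fun j => A (i, j)).trans (h1 i)
  have h2' := fun j => (hr fun i => A (i, j)).trans (h2 j)
  have h3' := (hr fun i => A (i, i)).trans h3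
  have h4' := (hr fun i => A (i, i.rev)).trans h4
  simp only [Fin.rev_rev] at h4'
  refine ⟨hb.comp (Set.bijOn_univ.2 (Function.bijective_iff_has_inverse.2
    ⟨Asymptotic.symm s (if s then c else r) (if s then r else c), fun p => ?_, fun p => ?_⟩)),
    S, ?_⟩ <;> cases s <;> cases r <;> cases c <;> simp [Asymptotic.symm, *]

theorem card_eq {n : ℕ} (hn : 2 ≤ n) :
    Nat.card {A : Fin n × Fin n → ℕ // IsMagic n A} = M n * 8 := by
  let f : (Quot fun A B : {A : Fin n × Fin n → ℕ // IsMagic n A} =>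
      ∃ s r c : Bool, B.1 = A.1 ∘ symm s r c) × Bool × Bool × Bool →
      {A : Fin n × Fin n → ℕ // IsMagic n A} := fun q =>
    ⟨q.1.out.1 ∘ symm q.2.1 q.2.2.1 q.2.2.2, q.1.out.2.symm _ _ _⟩
  have hq : ∀ q, Quot.mk _ (f q) = q.1 := fun q =>
    (Quot.sound ⟨_, _, _, rfl⟩).symm.trans (Quot.out_eq q.1)
  have hf : Function.Bijective f := by
    refine ⟨fun ⟨q, s, r, c⟩ ⟨q', s', r', c'⟩ h => ?_, fun A => ?_⟩
    · obtain rfl : q = q' := (hq _).symm.trans ((congrArg _ h).trans (hq _))
      have h1 : ∀ p, symm s r c p = symm s' r' c' p := fun p =>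
        q.out.2.1.2.1 trivial trivial (congrFun (congrArg Subtype.val h) p)
      have h2 := h1 (⟨0, by omega⟩, ⟨0, by omega⟩)
      have h3 := h1 (⟨0, by omega⟩, ⟨n - 1, by omega⟩)
      cases s <;> cases r <;> cases c <;> cases s' <;> cases r' <;> cases c' <;>
        simp [symm, Fin.ext_iff] at h2 h3 ⊢ <;> omega
    · obtain ⟨s, r, c, h⟩ := (equiv n).eqvGen_iff.1 (Quot.eqvGen_exact (Quot.out_eq (Quot.mk _ A)))
      exact ⟨(Quot.mk _ A, s, r, c), Subtype.ext h.symm⟩
  simpa [M] using (Nat.card_eq_of_bijective f hf).symm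

theorem magic_iff {n : ℕ} (hn : 0 < n) {t : ℤ} (ht : 2 * t = n * (n ^ 2 - 1)) (x : Om n) :
    IsMagic n (fun p => (x p : ℕ) + 1) ↔ Mag t x := by
  have key : ∀ (f : Fin n → Fin n × Fin n) (S : ℕ), ∑ i, ((x (f i) : ℕ) + 1) = S ↔
      ∑ i, MP_f80039_co.H9.val x (f i).1 (f i).2 = (S : ℤ) - n := by
    intro f S
    rw [← Nat.cast_inj (R := ℤ), eq_sub_iff_add_eq]
    simp [MP_f80039_co.H9.val, sum_add_distrib]
  have hb : Set.BijOn (fun p => (x p : ℕ) + 1) Set.univ (Set.Icc 1 (n ^ 2)) := by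
    refine ⟨fun p _ => ⟨by simp, (x p).2⟩, fun p _ q _ h => x.injective (Fin.ext (by
      simpa using h)), fun v hv => ⟨x.symm ⟨v - 1, by have := hv.1; have := hv.2; omega⟩,
      trivial, by have := hv.1; simp; omega⟩⟩
  constructor
  · rintro ⟨-, S, h1, h2, h3, h4⟩
    have h1' := fun i => (key (fun j => (i, j)) S).1 (h1 i)
    have hS : (S : ℤ) - n = t := by
      have h5 := total ht x
      simp only [h1', sum_const, card_univ, Fintype.card_fin, nsmul_eq_mul] at h5
      exact mul_left_cancel₀ (by exact_mod_cast hn.ne') h5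
    rw [← hS]
    exact ⟨⟨⟨(key (fun i => (i, i)) S).1 h3, (key (fun i => (i, i.rev)) S).1 h4⟩, h1'⟩,
      fun j _ => (key (fun i => (i, j)) S).1 (h2 j)⟩
  · rintro ⟨⟨⟨h3, h4⟩, h1⟩, h2⟩
    have h0 : 0 ≤ t := h1 ⟨0, hn⟩ ▸ sum_nonneg fun b _ => (val_bd x _ b).1
    obtain ⟨S, hS⟩ : ∃ S : ℕ, t = (S : ℤ) - n := ⟨t.toNat + n, by push_cast; omega⟩
    subst hS
    exact ⟨hb, S, fun i => (key (fun j => (i, j)) S).2 (h1 i),
      fun j => (key (fun i => (i, j)) S).2 (h2 j j.2), (key (fun i => (i, i)) S).2 h3,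
      (key (fun i => (i, i.rev)) S).2 h4⟩

theorem card_magic {n : ℕ} (hn : 0 < n) {t : ℤ} (ht : 2 * t = n * (n ^ 2 - 1)) :
    (Nat.card {A : Fin n × Fin n → ℕ // IsMagic n A} : ℝ) =
      Pr (Mag (n := n) t) * (n ^ 2).factorial := by
  classical
  let f : {x : Om n // Mag t x} → {A : Fin n × Fin n → ℕ // IsMagic n A} := fun x =>
    ⟨fun p => (x.1 p : ℕ) + 1, (magic_iff hn ht x.1).2 x.2⟩
  have hf : Function.Bijective f := by
    refine ⟨fun x y h => Subtype.ext (Equiv.ext fun p => Fin.ext ?_), fun A => ?_⟩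
    · simpa [f] using congrFun (congrArg Subtype.val h) p
    · have hA := A.2.1
      have hm : ∀ p, 1 ≤ A.1 p ∧ A.1 p ≤ n ^ 2 := fun p => hA.1 (Set.mem_univ p)
      let u : Fin n × Fin n → Fin (n ^ 2) := fun p => ⟨A.1 p - 1, by have := hm p; omega⟩
      have hu : Function.Bijective u := (Fintype.bijective_iff_injective_and_card u).2
        ⟨fun p q h => hA.2.1 trivial trivial (by
          have := hm p
          have := hm q
          have : A.1 p - 1 = A.1 q - 1 := congrArg Fin.val h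
          omega), by simp [sq]⟩
      have e : (fun p => (Equiv.ofBijective u hu p : ℕ) + 1) = A.1 := funext fun p => by
        have := hm p
        simp only [Equiv.ofBijective_apply, u]
        omega
      exact ⟨⟨Equiv.ofBijective u hu, (magic_iff hn ht _).1 (e ▸ A.2)⟩, Subtype.ext e⟩
  have hc : Fintype.card (Om n) = (n ^ 2).factorial := by
    rw [Fintype.card_equiv (Classical.arbitrary _)]
    simp [sq]
  rw [← Nat.card_eq_of_bijective f hf, Pr, Ex, hc,
    div_mul_cancel₀ _ (by exact_mod_cast (Nat.factorial_pos _).ne'), Nat.card_eq_fintype_card,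
    Fintype.card_subtype]
  simp [ind]

theorem exists_t (n : ℕ) : ∃ t : ℤ, 2 * t = n * (n ^ 2 - 1) := by
  obtain ⟨u, hu⟩ := Int.even_mul_succ_self (n : ℤ)
  exact ⟨u * (n - 1), by linear_combination (1 - (n : ℤ)) * hu⟩

theorem result : Tendsto
    (fun n : ℕ => (M n : ℝ) / (n * ((n ^ 2).factorial : ℝ) / (8 * Real.exp 1) *
      (6 / (Real.pi * (n : ℝ) ^ 5)) ^ n)) atTop (nhds 1) := by
  choose t ht using exists_t
  refine (mag_tendsto t ht).congr' ?_
  filter_upwards [eventually_ge_atTop 2] with n hn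
  have hn0 : (0 : ℝ) < n := by exact_mod_cast (by omega)
  have hF : (0 : ℝ) < (n ^ 2).factorial := by exact_mod_cast Nat.factorial_pos _
  have hπ := Real.pi_pos
  have h1 := card_magic (by omega) (ht n)
  rw [card_eq hn, Nat.cast_mul, ← eq_div_iff (by norm_num)] at h1
  rw [h1, Real.exp_sub, Real.exp_sub, Real.exp_log hn0, Real.exp_nat_mul, LG,
    Real.exp_log (by positivity), div_pow, div_pow]
  push_cast
  field_simp

end Pool.Agent.Results.MP_f80039_co.Asymptotic
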